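import Pool.Agent.Helper73.OB.GoalsB

/-!
# Project OB (MP_fc0446_an): packet GREEDY, greedy matching along the reduced words
-/

set_option autoImplicit false

namespace Pool.Agent.Helper33.OB

open MeasureTheory Pool.Agent.Helper73.OB

/-- Words over a finite alphabet are numbered by increasing length. -/
theorem exists_code (S : Type) [Finite S] : ∃ (c : List S → ℕ) (N : ℕ → ℕ),
    Function.Injective c ∧ ∀ (w : List S) (n : ℕ), c w < N n ↔ w.length ≤ n := by
  obtain ⟨q, ⟨g⟩⟩ := Finite.exists_equiv_fin S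
  have hd : ∀ w : List S, (q + 2).digits (Nat.ofDigits (q + 2) (w.map fun s => (g s : ℕ) + 1)) =
      w.map fun s => (g s : ℕ) + 1 := by
    intro w
    refine Nat.digits_ofDigits (q + 2) (by omega) _ ?_ ?_
    · intro l hl
      obtain ⟨s, _, rfl⟩ := List.mem_map.1 hl
      have := (g s).2
      omega
    · intro h
      have := List.getLast_mem h
      obtain ⟨s, _, hs⟩ := List.mem_map.1 this
      rw [← hs]
      omega
  refine ⟨fun w => Nat.ofDigits (q + 2) (w.map fun s => (g s : ℕ) + 1), fun n => (q + 2) ^ n,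
    ?_, ?_⟩
  · intro w w' h
    have h1 : w.map (fun s => (g s : ℕ) + 1) = w'.map fun s => (g s : ℕ) + 1 := by
      rw [← hd w, ← hd w']
      exact congrArg _ h
    refine List.map_injective_iff.2 ?_ h1
    intro s s' hs
    have hs' : (g s : ℕ) + 1 = (g s' : ℕ) + 1 := hs
    exact g.injective (Fin.ext (by omega))
  · intro w n
    have h2 := Nat.digits_length_le_iff (b := q + 2) (k := n) (by omega)
      (Nat.ofDigits (q + 2) (w.map fun s => (g s : ℕ) + 1))
    rw [hd w, List.length_map] at h2
    exact h2.symm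

theorem Red_invw {S : Type} {β : S → S} (hβ : ∀ s, β (β s) = s) {w : List S} (h : Red β w) :
    Red β (invw β w) := by
  unfold Red invw at *
  rw [List.isChain_reverse, List.isChain_map]
  refine h.imp ?_
  intro a b hab hc
  apply hab
  rw [← hβ b, ← hc]

theorem length_invw {S : Type} (β : S → S) (w : List S) : (invw β w).length = w.length := by
  unfold invw
  rw [List.length_reverse, List.length_map]

theorem ae_notMem {X : Type} {m : MeasurableSpace X} {μ : Measure X} {s : Set X} (h : μ s = 0) :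
    ∀ᵐ x ∂μ, x ∉ s := measure_eq_zero_iff_ae_notMem.1 h

theorem null_empty {X : Type} {m : MeasurableSpace X} {μ : Measure X} : μ (∅ : Set X) = 0 :=
  measure_empty

section

variable {S X : Type} (β : S → S) (f : S → X → X) (c : List S → ℕ) (A B : Set X)

/-- The sets `A_k`, `B_k`. -/
def ab : ℕ → Set X × Set X
  | 0 => (A, B)
  | k + 1 =>
    ({x | x ∈ (ab k).1 ∧ ∀ w, Red β w → c w = k → run f w x ∉ (ab k).2},
      {y | y ∈ (ab k).2 ∧ ∀ w, Red β w → c w = k → run f (invw β w) y ∉ (ab k).1})

/-- `x` is matched by the word `w`. -/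
def Mt (w : List S) (x : X) : Prop :=
  Red β w ∧ x ∈ (ab β f c A B (c w)).1 ∧ run f w x ∈ (ab β f c A B (c w)).2

/-- `y` is matched by the word `w`, from the other side. -/
def Mt' (w : List S) (y : X) : Prop :=
  Red β w ∧ y ∈ (ab β f c A B (c w)).2 ∧ run f (invw β w) y ∈ (ab β f c A B (c w)).1

theorem ab_succ1 (k : ℕ) : (ab β f c A B (k + 1)).1 ⊆ (ab β f c A B k).1 := fun _ h => h.1

theorem ab_succ2 (k : ℕ) : (ab β f c A B (k + 1)).2 ⊆ (ab β f c A B k).2 := fun _ h => h.1

theorem ab_anti1 : Antitone fun k => (ab β f c A B k).1 := antitone_nat_of_succ_le fun k =>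
  ab_succ1 β f c A B k

theorem ab_anti2 : Antitone fun k => (ab β f c A B k).2 := antitone_nat_of_succ_le fun k =>
  ab_succ2 β f c A B k

variable {β f c A B}

theorem Mt.nlt {w w' : List S} {x : X} (h : Mt β f c A B w x) (h' : Mt β f c A B w' x) :
    ¬ c w < c w' := by
  intro hlt
  have h1 : x ∈ (ab β f c A B (c w + 1)).1 :=
    ab_anti1 β f c A B (Nat.succ_le_of_lt hlt) h'.2.1
  exact h1.2 w h.1 rfl h.2.2

theorem Mt.uniq (hc : Function.Injective c) {w w' : List S} {x : X} (h : Mt β f c A B w x)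
    (h' : Mt β f c A B w' x) : w = w' := by
  apply hc
  exact le_antisymm (not_lt.1 (h'.nlt h)) (not_lt.1 (h.nlt h'))

theorem Mt'.nlt {w w' : List S} {x : X} (h : Mt' β f c A B w x) (h' : Mt' β f c A B w' x) :
    ¬ c w < c w' := by
  intro hlt
  have h1 : x ∈ (ab β f c A B (c w + 1)).2 :=
    ab_anti2 β f c A B (Nat.succ_le_of_lt hlt) h'.2.1
  exact h1.2 w h.1 rfl h.2.2

theorem Mt'.uniq (hc : Function.Injective c) {w w' : List S} {x : X} (h : Mt' β f c A B w x)
    (h' : Mt' β f c A B w' x) : w = w' := by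
  apply hc
  exact le_antisymm (not_lt.1 (h'.nlt h)) (not_lt.1 (h.nlt h'))

/-- If a point leaves the first set then it is matched. -/
theorem exists_Mt {x : X} (hx : x ∈ A) {k : ℕ} (hk : x ∉ (ab β f c A B k).1) :
    ∃ w, Mt β f c A B w x := by
  induction k with
  | zero => exact absurd hx hk
  | succ k ih =>
    by_cases h : x ∈ (ab β f c A B k).1
    · by_contra hcon
      apply hk
      refine ⟨h, fun w hw hwk hb => hcon ⟨w, hw, ?_, ?_⟩⟩
      · rw [hwk]
        exact h
      · rw [hwk]
        exact hb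
    · exact ih h

theorem exists_Mt' {y : X} (hy : y ∈ B) {k : ℕ} (hk : y ∉ (ab β f c A B k).2) :
    ∃ w, Mt' β f c A B w y := by
  induction k with
  | zero => exact absurd hy hk
  | succ k ih =>
    by_cases h : y ∈ (ab β f c A B k).2
    · by_contra hcon
      apply hk
      refine ⟨h, fun w hw hwk hb => hcon ⟨w, hw, ?_, ?_⟩⟩
      · rw [hwk]
        exact h
      · rw [hwk]
        exact hb
    · exact ih h

theorem Mt.swap (hf : ∀ s x, f (β s) (f s x) = x) {w : List S} {x : X}
    (h : Mt β f c A B w x) : Mt' β f c A B w (run f w x) := by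
  refine ⟨h.1, h.2.2, ?_⟩
  rw [run_invw hf]
  exact h.2.1

theorem Mt'.swap (hβ : ∀ s, β (β s) = s) (hf : ∀ s x, f (β s) (f s x) = x) {w : List S} {y : X}
    (h : Mt' β f c A B w y) : Mt β f c A B w (run f (invw β w) y) := by
  refine ⟨h.1, h.2.2, ?_⟩
  rw [run_invw' hβ hf]
  exact h.2.1

theorem ab_empty (w : List S) (hw : Red β w) {k : ℕ} (hk : c w < k) :
    (ab β f c A B k).1 ∩ run f w ⁻¹' (ab β f c A B k).2 = ∅ := by
  rw [Set.eq_empty_iff_forall_notMem]
  rintro x ⟨h1, h2⟩
  have h3 : x ∈ (ab β f c A B (c w + 1)).1 := ab_anti1 β f c A B (Nat.succ_le_of_lt hk) h1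
  exact h3.2 w hw rfl (ab_anti2 β f c A B hk.le h2)

theorem run_meas {H : MeasurableSpace X} (hH : ∀ s, @Measurable X X H H (f s)) (w : List S) :
    @Measurable X X H H (run f w) := by
  induction w with
  | nil => exact measurable_id
  | cons a w ih => exact ih.comp (hH a)

theorem ab_meas (hc : Function.Injective c) {H : MeasurableSpace X}
    (hH : ∀ s, @Measurable X X H H (f s)) (hA : MeasurableSet[H] A) (hB : MeasurableSet[H] B)
    (k : ℕ) : MeasurableSet[H] (ab β f c A B k).1 ∧ MeasurableSet[H] (ab β f c A B k).2 := by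
  induction k with
  | zero => exact ⟨hA, hB⟩
  | succ k ih =>
    by_cases h : ∃ w, Red β w ∧ c w = k
    · obtain ⟨w, hw, hwk⟩ := h
      have h1 : (ab β f c A B (k + 1)).1 =
          (ab β f c A B k).1 \ run f w ⁻¹' (ab β f c A B k).2 := by
        ext x
        constructor
        · rintro ⟨hx, hx'⟩
          exact ⟨hx, hx' w hw hwk⟩
        · rintro ⟨hx, hx'⟩
          refine ⟨hx, fun v _ hvk => ?_⟩
          rw [hc (hvk.trans hwk.symm)]
          exact hx'
      have h2 : (ab β f c A B (k + 1)).2 =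
          (ab β f c A B k).2 \ run f (invw β w) ⁻¹' (ab β f c A B k).1 := by
        ext x
        constructor
        · rintro ⟨hx, hx'⟩
          exact ⟨hx, hx' w hw hwk⟩
        · rintro ⟨hx, hx'⟩
          refine ⟨hx, fun v _ hvk => ?_⟩
          rw [hc (hvk.trans hwk.symm)]
          exact hx'
      rw [h1, h2]
      exact ⟨ih.1.diff (run_meas hH w ih.2), ih.2.diff (run_meas hH (invw β w) ih.1)⟩
    · have h1 : (ab β f c A B (k + 1)).1 = (ab β f c A B k).1 := by
        ext x
        exact ⟨fun hx => hx.1, fun hx => ⟨hx, fun w hw hwk => absurd ⟨w, hw, hwk⟩ h⟩⟩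
      have h2 : (ab β f c A B (k + 1)).2 = (ab β f c A B k).2 := by
        ext x
        exact ⟨fun hx => hx.1, fun hx => ⟨hx, fun w hw hwk => absurd ⟨w, hw, hwk⟩ h⟩⟩
      rw [h1, h2]
      exact ih

theorem ab_measure [MeasurableSpace X] (μ : Measure X) [IsProbabilityMeasure μ]
    (hs : Sys β μ f) (hc : Function.Injective c)
    (hm : ∀ k, MeasurableSet (ab β f c A B k).1 ∧ MeasurableSet (ab β f c A B k).2)
    (hAB : μ A = μ B) (k : ℕ) : μ (ab β f c A B k).1 = μ (ab β f c A B k).2 := by
  induction k with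
  | zero => exact hAB
  | succ k ih =>
    by_cases h : ∃ w, Red β w ∧ c w = k
    · obtain ⟨w, hw, hwk⟩ := h
      have h1 : (ab β f c A B (k + 1)).1 =
          (ab β f c A B k).1 \ ((ab β f c A B k).1 ∩ run f w ⁻¹' (ab β f c A B k).2) := by
        ext x
        constructor
        · rintro ⟨hx, hx'⟩
          exact ⟨hx, fun hc => hx' w hw hwk hc.2⟩
        · rintro ⟨hx, hx'⟩
          refine ⟨hx, fun v _ hvk hb => hx' ⟨hx, ?_⟩⟩
          rw [hc (hvk.trans hwk.symm)] at hb
          exact hb
      have h2 : (ab β f c A B (k + 1)).2 =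
          (ab β f c A B k).2 \
            ((ab β f c A B k).2 ∩ run f (invw β w) ⁻¹' (ab β f c A B k).1) := by
        ext x
        constructor
        · rintro ⟨hx, hx'⟩
          exact ⟨hx, fun hc => hx' w hw hwk hc.2⟩
        · rintro ⟨hx, hx'⟩
          refine ⟨hx, fun v _ hvk hb => hx' ⟨hx, ?_⟩⟩
          rw [hc (hvk.trans hwk.symm)] at hb
          exact hb
      have m1 : MeasurableSet ((ab β f c A B k).1 ∩ run f w ⁻¹' (ab β f c A B k).2) :=
        (hm k).1.inter ((hs.run_mp w).measurable (hm k).2)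
      have m2 : MeasurableSet
          ((ab β f c A B k).2 ∩ run f (invw β w) ⁻¹' (ab β f c A B k).1) :=
        (hm k).2.inter ((hs.run_mp (invw β w)).measurable (hm k).1)
      have h3 : run f w ⁻¹' ((ab β f c A B k).2 ∩ run f (invw β w) ⁻¹' (ab β f c A B k).1) =
          (ab β f c A B k).1 ∩ run f w ⁻¹' (ab β f c A B k).2 := by
        ext x
        simp only [Set.mem_preimage, Set.mem_inter_iff]
        rw [run_invw hs.inv]
        exact and_comm
      have h4 : μ ((ab β f c A B k).2 ∩ run f (invw β w) ⁻¹' (ab β f c A B k).1) =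
          μ ((ab β f c A B k).1 ∩ run f w ⁻¹' (ab β f c A B k).2) := by
        rw [← h3]
        exact ((hs.run_mp w).measure_preimage m2.nullMeasurableSet).symm
      rw [h1, h2, measure_sdiff Set.inter_subset_left m1.nullMeasurableSet (measure_ne_top _ _),
        measure_sdiff Set.inter_subset_left m2.nullMeasurableSet (measure_ne_top _ _), ih, h4]
    · have h1 : (ab β f c A B (k + 1)).1 = (ab β f c A B k).1 := by
        ext x
        exact ⟨fun hx => hx.1, fun hx => ⟨hx, fun w hw hwk => absurd ⟨w, hw, hwk⟩ h⟩⟩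
      have h2 : (ab β f c A B (k + 1)).2 = (ab β f c A B k).2 := by
        ext x
        exact ⟨fun hx => hx.1, fun hx => ⟨hx, fun w hw hwk => absurd ⟨w, hw, hwk⟩ h⟩⟩
      rw [h1, h2]
      exact ih

theorem ab_lim [MeasurableSpace X] (μ : Measure X) [IsProbabilityMeasure μ]
    (hm : ∀ k, MeasurableSet (ab β f c A B k).1 ∧ MeasurableSet (ab β f c A B k).2)
    (hmu : ∀ k, μ (ab β f c A B k).1 = μ (ab β f c A B k).2) :
    μ (⋂ k, (ab β f c A B k).1) = μ (⋂ k, (ab β f c A B k).2) := by
  rw [(ab_anti1 β f c A B).measure_iInter (fun k => (hm k).1.nullMeasurableSet)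
    ⟨0, measure_ne_top _ _⟩,
    (ab_anti2 β f c A B).measure_iInter (fun k => (hm k).2.nullMeasurableSet)
    ⟨0, measure_ne_top _ _⟩]
  exact iInf_congr fun k => hmu k

/-- A function which picks the unique word of a measurable relation is measurable. -/
theorem meas_pick [Finite S] {H : MeasurableSpace X} {P : List S → X → Prop}
    {g : List S → List S} (hP : ∀ w, MeasurableSet[H] {x | P w x}) {K : X → List S}
    (h1 : ∀ x w, P w x → K x = g w) (h2 : ∀ x, (∀ w, ¬P w x) → K x = []) :
    @Measurable X (List S) H ⊤ K := by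
  have hcount : Countable S := Finite.to_countable
  refine @measurable_to_countable' (List S) X ⊤ _ H K fun v => ?_
  have e : K ⁻¹' {v} = (⋃ w ∈ {w | g w = v}, {x | P w x}) ∪
      (if v = [] then ⋂ w, {x | P w x}ᶜ else ∅) := by
    ext x
    simp only [Set.mem_preimage, Set.mem_singleton_iff, Set.mem_union, Set.mem_iUnion,
      Set.mem_ofPred_eq]
    by_cases hx : ∃ w, P w x
    · obtain ⟨w, hw⟩ := hx
      constructor
      · intro hv
        exact Or.inl ⟨w, by rw [← hv, h1 x w hw], hw⟩
      · rintro (⟨w', hw', hp⟩ | hp)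
        · rw [h1 x w' hp, hw']
        · split_ifs at hp with h3
          · simp only [Set.mem_iInter, Set.mem_compl_iff, Set.mem_ofPred_eq] at hp
            exact absurd hw (hp w)
          · exact absurd hp (Set.notMem_empty x)
    · have hx' : ∀ w, ¬P w x := fun w hw => hx ⟨w, hw⟩
      rw [h2 x hx']
      constructor
      · intro hv
        right
        rw [if_pos hv.symm]
        simpa using hx'
      · rintro (⟨w', _, hp⟩ | hp)
        · exact absurd hp (hx' w')
        · split_ifs at hp with h3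
          · exact h3.symm
          · exact absurd hp (Set.notMem_empty x)
  rw [e]
  refine MeasurableSet.union ?_ ?_
  · exact MeasurableSet.biUnion (Set.to_countable _) fun w _ => hP w
  · split_ifs
    · exact MeasurableSet.iInter fun w => (hP w).compl
    · exact MeasurableSet.empty

end

open Classical in
/-- **GREEDY**. -/
theorem greedy : S_GREEDY := by
  intro S _ β hβ X mX μ _ f hs
  have hinv := hs.inv
  intro H hHX hH hmix A B hA hB hAB
  obtain ⟨c, N, hc, hN⟩ := exists_code S
  let K : X → List S := fun x => if h : ∃ w, Mt β f c A B w x then Classical.choose h else []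
  let K' : X → List S := fun y =>
    if h : ∃ w, Mt' β f c A B w y then invw β (Classical.choose h) else []
  have hK : ∀ x w, Mt β f c A B w x → K x = w := by
    intro x w hw
    have h : ∃ w, Mt β f c A B w x := ⟨w, hw⟩
    have : K x = Classical.choose h := dif_pos h
    rw [this]
    exact (Classical.choose_spec h).uniq hc hw
  have hK0 : ∀ x, (∀ w, ¬Mt β f c A B w x) → K x = [] := by
    intro x hx
    exact dif_neg fun ⟨w, hw⟩ => hx w hw
  have hK' : ∀ y w, Mt' β f c A B w y → K' y = invw β w := by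
    intro y w hw
    have h : ∃ w, Mt' β f c A B w y := ⟨w, hw⟩
    have : K' y = invw β (Classical.choose h) := dif_pos h
    rw [this, (Classical.choose_spec h).uniq hc hw]
  have hK0' : ∀ y, (∀ w, ¬Mt' β f c A B w y) → K' y = [] := by
    intro y hy
    exact dif_neg fun ⟨w, hw⟩ => hy w hw
  have hmeas := fun k => ab_meas (β := β) hc hH hA hB k
  have hmX : ∀ k, @MeasurableSet X mX (ab β f c A B k).1 ∧
      @MeasurableSet X mX (ab β f c A B k).2 := fun k => ⟨hHX _ (hmeas k).1, hHX _ (hmeas k).2⟩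
  have hmu := fun k => @ab_measure S X β f c A B mX μ _ hs hc hmX hAB k
  have hMt : ∀ w, MeasurableSet[H] {x | Mt β f c A B w x} := by
    intro w
    by_cases hw : Red β w
    · have : {x | Mt β f c A B w x} =
          (ab β f c A B (c w)).1 ∩ run f w ⁻¹' (ab β f c A B (c w)).2 := by
        ext x
        exact ⟨fun h => h.2, fun h => ⟨hw, h⟩⟩
      rw [this]
      exact (hmeas _).1.inter (run_meas hH w (hmeas _).2)
    · have : {x | Mt β f c A B w x} = ∅ := by
        ext x
        exact ⟨fun h => absurd h.1 hw, fun h => absurd h (Set.notMem_empty x)⟩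
      rw [this]
      exact @MeasurableSet.empty X H
  have hMt' : ∀ w, MeasurableSet[H] {x | Mt' β f c A B w x} := by
    intro w
    by_cases hw : Red β w
    · have : {x | Mt' β f c A B w x} =
          (ab β f c A B (c w)).2 ∩ run f (invw β w) ⁻¹' (ab β f c A B (c w)).1 := by
        ext x
        exact ⟨fun h => h.2, fun h => ⟨hw, h⟩⟩
      rw [this]
      exact (hmeas _).2.inter (run_meas hH (invw β w) (hmeas _).1)
    · have : {x | Mt' β f c A B w x} = ∅ := by
        ext x
        exact ⟨fun h => absurd h.1 hw, fun h => absurd h (Set.notMem_empty x)⟩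
      rw [this]
      exact @MeasurableSet.empty X H
  -- the leftover sets are null
  have e1 : μ (⋂ k, (ab β f c A B k).1) = μ (⋂ k, (ab β f c A B k).2) :=
    @ab_lim S X β f c A B mX μ _ hmX hmu
  have e2 : μ (⋂ k, (ab β f c A B k).1) = 0 := by
    by_contra hne
    have hp : 0 < μ (⋂ k, (ab β f c A B k).1) := pos_iff_ne_zero.2 hne
    obtain ⟨h, hr, hh⟩ := hmix _ _ (@MeasurableSet.iInter X _ H _ _ fun k => (hmeas k).1)
      (@MeasurableSet.iInter X _ H _ _ fun k => (hmeas k).2) hp (e1 ▸ hp)
    have hsub : (⋂ k, (ab β f c A B k).1) ∩ run f h ⁻¹' (⋂ k, (ab β f c A B k).2) ⊆ ∅ := by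
      rw [← ab_empty (β := β) (f := f) (c := c) (A := A) (B := B) h hr (Nat.lt_succ_self _)]
      rintro x ⟨h1, h2⟩
      refine ⟨Set.mem_iInter.1 h1 _, ?_⟩
      change run f h x ∈ (ab β f c A B (c h).succ).2
      exact Set.mem_iInter.1 h2 _
    rw [Set.subset_empty_iff.1 hsub, null_empty] at hh
    exact absurd hh (lt_irrefl _)
  have e3 : μ (⋂ k, (ab β f c A B k).2) = 0 := e1 ▸ e2
  have hsubA : ∀ k, (ab β f c A B k).1 ⊆ A := fun k => ab_anti1 β f c A B (Nat.zero_le k)
  have hsubB : ∀ k, (ab β f c A B k).2 ⊆ B := fun k => ab_anti2 β f c A B (Nat.zero_le k)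
  refine ⟨K, K', meas_pick (g := fun w => w) hMt hK hK0, meas_pick hMt' hK' hK0', ?_, ?_, ?_, ?_,
    ?_, ?_, ?_⟩
  · intro x
    by_cases h : ∃ w, Mt β f c A B w x
    · obtain ⟨w, hw⟩ := h
      rw [hK x w hw]
      exact hw.1
    · rw [hK0 x fun w hw => h ⟨w, hw⟩]
      exact List.isChain_nil
  · intro y
    by_cases h : ∃ w, Mt' β f c A B w y
    · obtain ⟨w, hw⟩ := h
      rw [hK' y w hw]
      exact Red_invw hβ hw.1
    · rw [hK0' y fun w hw => h ⟨w, hw⟩]
      exact List.isChain_nil
  · intro x hx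
    exact hK0 x fun w hw => hx (hsubA _ hw.2.1)
  · intro y hy
    exact hK0' y fun w hw => hy (hsubB _ hw.2.1)
  · filter_upwards [ae_notMem e2] with x hx hxA
    obtain ⟨k, hk⟩ : ∃ k, x ∉ (ab β f c A B k).1 := by
      simpa using hx
    obtain ⟨w, hw⟩ := exists_Mt hxA hk
    rw [hK x w hw]
    exact ⟨hsubB _ hw.2.2, hK' _ w (hw.swap hinv)⟩
  · filter_upwards [ae_notMem e3] with y hy hyB
    obtain ⟨k, hk⟩ : ∃ k, y ∉ (ab β f c A B k).2 := by
      simpa using hy
    obtain ⟨w, hw⟩ := exists_Mt' hyB hk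
    rw [hK' y w hw, invw_invw hβ]
    exact ⟨hsubA _ hw.2.2, hK _ w (hw.swap hβ hinv)⟩
  · intro n
    refine ⟨(ab β f c A B (N n)).1, (ab β f c A B (N n)).2, (hmeas _).1, (hmeas _).2, hmu _,
      ?_, ?_, ?_⟩
    · intro x hx
      have hx' : n < (K x).length := hx
      by_cases h : ∃ w, Mt β f c A B w x
      · obtain ⟨w, hw⟩ := h
        rw [hK x w hw] at hx'
        refine ab_anti1 β f c A B ?_ hw.2.1
        by_contra hlt
        exact absurd ((hN w n).1 (not_le.1 hlt)) (not_le.2 hx')
      · rw [hK0 x fun w hw => h ⟨w, hw⟩] at hx'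
        exact absurd hx' (Nat.not_lt_zero _)
    · intro y hy
      have hy' : n < (K' y).length := hy
      by_cases h : ∃ w, Mt' β f c A B w y
      · obtain ⟨w, hw⟩ := h
        rw [hK' y w hw, length_invw] at hy'
        refine ab_anti2 β f c A B ?_ hw.2.1
        by_contra hlt
        exact absurd ((hN w n).1 (not_le.1 hlt)) (not_le.2 hy')
      · rw [hK0' y fun w hw => h ⟨w, hw⟩] at hy'
        exact absurd hy' (Nat.not_lt_zero _)
    · intro h hr hn
      rw [ab_empty h hr ((hN h n).2 hn), null_empty]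

end Pool.Agent.Helper33.OB
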